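import Mathlib
import Pool.Agent.Lib.MP_724d4c_ag.Main

/-!
# MP_724d4c_ag: the regularity of `X_red` is not bounded by a polynomial in the regularity of `X` and `r`

The definitions are in `Pool.Agent.Lib.MP_724d4c_ag.Defs`. `IsReg J m`: the subscheme of `ℙ^{n-1}` defined by
the homogeneous ideal `J` is `m`-regular, with sheaf cohomology computed by Cech cochains. `curveIdeal k a b` is
generated by the `k + 1` forms `w_{j+1}^{b_j} - w_j t^{b_j - 1}`, `0 ≤ j < k`, and `y^a w_k - w_0^a t` in the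
variables `t, y, w_0, …, w_k` of `ℙ^{k+2}`.

For `b_0 = 4`, `b_j = 2` for `j ≥ 1`, `a = 2`: `reg X ≤ k + 5` and `reg X_red ≥ 2^k + 3`.
-/

namespace Pool.Agent.Results.MP_724d4c_ag.ExponentialGap

open Pool.Agent.RegRed

theorem result (k a : ℕ) (b : ℕ → ℕ) (hk : 1 ≤ k) (ha : 2 ≤ a) (hb : ∀ j, 1 ≤ b j)
    (hb0 : 4 ≤ b 0) :
    IsHomog (curveIdeal k a b) ∧
    (∀ m : ℤ, ∑ j ∈ Finset.range k, ((b j : ℤ) - 1) + a + 1 ≤ m → IsReg (curveIdeal k a b) m) ∧
    ∀ q : ℤ, q ≤ ((b 0 : ℤ) - 3) * a * ∏ j ∈ Finset.Ico 1 k, (b j : ℤ) + a →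
      ¬ IsReg (curveIdeal k a b).radical q :=
  main k a b hk ha hb hb0

end Pool.Agent.Results.MP_724d4c_ag.ExponentialGap
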