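import Mathlib
import Pool.Agent.Lib.MP_724d4c_ag.NFinal

/-!
# MP_724d4c_ag: the transfer theorem and the doubly exponential gap with `X_red` integral

The definitions are in `Pool.Agent.Lib.MP_724d4c_ag.Defs`. `IsReg J m`: the subscheme of `ℙ^{n-1}` defined by
the homogeneous ideal `J` is `m`-regular, with sheaf cohomology computed by Cech cochains.
-/

namespace Pool.Agent.Results.MP_724d4c_ag.Integral

open Pool.Agent.RegRed MvPolynomial

theorem result :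
    (∀ (n m : ℕ) (g : Fin m → MvPolynomial (Fin n) ℂ) (d : Fin m → ℕ),
      (∀ j, (g j).IsHomogeneous (d j)) → (∀ j, 1 ≤ d j) → (∀ j, g j ≠ 0) →
      ∃ I : Ideal (MvPolynomial (Fin (n + 2 * m + 4)) ℂ), IsHomog I ∧ I.radical.IsPrime ∧
        (∃ v, X v ∉ I.radical) ∧
        (∀ q : ℤ, 6 + ∑ j, (2 * (d j : ℤ) + 1) ≤ q → IsReg I q) ∧
        ∀ q : ℕ, IsReg I.radical (q + 5 + ∑ j, (d j : ℤ)) →
          IsReg (Ideal.span (Set.range g)) q ∧
          ∀ p : MvPolynomial (Fin n) ℂ, p.IsHomogeneous q →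
            (∀ v, ∃ N : ℕ, X v ^ N * p ∈ Ideal.span (Set.range g)) →
            p ∈ Ideal.span (Set.range g)) ∧
    ∀ k d : ℕ, 1 ≤ k → 2 ≤ d →
      ∃ I : Ideal (MvPolynomial (Fin (40 * k + 24)) ℂ), IsHomog I ∧ I.radical.IsPrime ∧
        (∃ v, X v ∉ I.radical) ∧
        (∀ q : ℤ, 8 * (d : ℤ) + 182 * k ^ 2 ≤ q → IsReg I q) ∧
        ∀ q : ℤ, q ≤ (d : ℤ) ^ 2 ^ k → ¬ IsReg I.radical q :=
  ⟨partA_int, partB_int⟩

end Pool.Agent.Results.MP_724d4c_ag.Integral
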