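import Mathlib
import Pool.Agent.Lib.MP_724d4c_ag.VerG

/-!
# MP_724d4c_ag: schemes of bounded regularity whose reduction is a variety of large regularity

The definitions are in `Pool.Agent.Lib.MP_724d4c_ag.Defs`. `IsReg J m`: the subscheme of `ℙ^{n-1}` defined by
the homogeneous ideal `J` is `m`-regular, with sheaf cohomology computed by Cech cochains.
-/

namespace Pool.Agent.Results.MP_724d4c_ag.IntegralUnbounded

open Pool.Agent.RegRed MvPolynomial

theorem result (k d v : ℕ) (hk : 1 ≤ k) (hd : 2 ≤ d) (hv : 8 * d + 182 * k ^ 2 = v)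
    (hvd : v ≤ d ^ 2 ^ k) :
    ∃ (M : ℕ) (J : Ideal (MvPolynomial (Fin M) ℂ)), M ≤ 2 * (v + 1) ^ (40 * k + 23) ∧
      IsHomog J ∧ J.radical.IsPrime ∧ (∃ i, X i ∉ J.radical) ∧
      (∀ q : ℤ, 40 * k + 25 ≤ q → IsReg J q) ∧
      ∀ q : ℤ, v * q ≤ (d : ℤ) ^ 2 ^ k → ¬ IsReg J.radical q :=
  integral_unbounded_A k d v hk hd hv hvd

end Pool.Agent.Results.MP_724d4c_ag.IntegralUnbounded
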