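import Mathlib
import Pool.Agent.Lib.MP_724d4c_ag.VerMain

/-!
# MP_724d4c_ag: the regularity of `X_red` is bounded by no function of the regularity of `X`

The definitions are in `Pool.Agent.Lib.MP_724d4c_ag.Defs`. `IsReg J m`: the subscheme of `ℙ^{n-1}` defined by
the homogeneous ideal `J` is `m`-regular, with sheaf cohomology computed by Cech cochains.
-/

namespace Pool.Agent.Results.MP_724d4c_ag.Unbounded

open Pool.Agent.RegRed MvPolynomial

theorem result (k : ℕ) (hk : 1 ≤ k) : ∃ C : ℕ, ∀ N : ℕ, 1 ≤ N →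
    ∃ (M : ℕ) (J : Ideal (MvPolynomial (Fin M) ℂ)), M ≤ C * N ^ (k + 2) ∧ IsHomog J ∧
      (∀ q : ℤ, 3 ≤ q → IsReg J q) ∧ (∀ d : ℤ, CohVanish J 1 d) ∧
      ∀ q : ℤ, q ≤ (N : ℤ) ^ k → ¬ IsReg J.radical q :=
  unbounded k hk

end Pool.Agent.Results.MP_724d4c_ag.Unbounded
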